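import Pool.Agent.Helper60.CP.Stm
import Pool.Agent.H206R2.Rot2.TE
import Pool.Agent.H206R2.Rot2.TG

/-!
# Part E of the project on `U(n)`-invariant metrics on `ℂP^n`: the one-parameter case
-/

set_option autoImplicit false

open Real Set MeasureTheory Filter Topology
open scoped ContDiff

namespace Pool.Agent.Helper93.CPE

open Pool.Agent.H206R2.Rot2 (well actW)
open Pool.Agent.H206R2.Rot2.TE (exists_last exists_first well_sub actW_nonneg)
open Pool.Agent.H206R2.Rot2.TF (abs_F deriv_neg deriv_pos)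
open Pool.Agent.H206R2.Rot2.TG (abs_ge left_bound right_bound weight_int)

/-- the effective potential `c²/g²` -/
noncomputable def V (g : ℝ → ℝ) (c x : ℝ) : ℝ := (c / g x) ^ 2

variable {M : ℝ} {g : ℝ → ℝ}

theorem cont_V (hg : Continuous g) (hpos : ∀ x ∈ Ioo 0 M, 0 < g x) (c : ℝ) :
    ContinuousOn (V g c) (Ioo 0 M) := by
  intro r hr
  have h1 : g r ≠ 0 := (hpos r hr).ne'
  exact ((continuousAt_const.div hg.continuousAt h1).pow 2).continuousWithinAt

theorem meas (hg : Continuous g) (c : ℝ) : Measurable (fun r => √(1 - V g c r)) := by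
  unfold V
  exact (measurable_const.sub ((measurable_const.div hg.measurable).pow_const 2)).sqrt

theorem bd (c r : ℝ) : √(1 - V g c r) ≤ 1 := by
  rw [Real.sqrt_le_left zero_le_one]
  unfold V
  nlinarith [sq_nonneg (c / g r)]

theorem intOn (hg : Continuous g) (c : ℝ) {A : Set ℝ} (hA : volume A < ⊤) :
    IntegrableOn (fun r => √(1 - V g c r)) A := by
  refine Measure.integrableOn_of_bounded (M := 1) hA.ne (meas hg c).aestronglyMeasurable ?_
  refine Eventually.of_forall fun r => ?_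
  rw [Real.norm_of_nonneg (Real.sqrt_nonneg _)]
  exact bd c r

theorem well_spec (hg : Continuous g) (hpos : ∀ x ∈ Ioo 0 M, 0 < g x) (h0 : g 0 = 0)
    (hM : g M = 0) {c : ℝ} (h1 : 0 < c) {s : ℝ} (hs0 : 0 < s) (hsM : s < M) (hs : V g c s < 1) :
    ∃ p q, 0 < p ∧ p < s ∧ s < q ∧ q < M ∧ V g c p = 1 ∧ V g c q = 1 ∧
      well M (V g c) s = Ioo p q ∧ ∀ x ∈ Ioo p q, V g c x < 1 := by
  have hVc := cont_V hg hpos c
  have big : ∀ u, 0 < u → u < M → g u < c → 1 ≤ V g c u := by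
    intro u hu0 huM hu
    have hgu : 0 < g u := hpos u ⟨hu0, huM⟩
    have : 1 ≤ c / g u := by rw [le_div_iff₀ hgu]; linarith
    unfold V
    nlinarith
  obtain ⟨u, hu0, hus, hu1⟩ : ∃ u, 0 < u ∧ u < s ∧ 1 ≤ V g c u := by
    have e1 : Tendsto g (𝓝[>] 0) (𝓝 (g 0)) := hg.continuousAt.mono_left nhdsWithin_le_nhds
    rw [h0] at e1
    have e2 : ∀ᶠ x in 𝓝[>] (0 : ℝ), g x < c := e1.eventually_lt_const h1
    have e3 : ∀ᶠ x in 𝓝[>] (0 : ℝ), x ∈ Ioo 0 s := Ioo_mem_nhdsGT hs0
    obtain ⟨u, hu, hu'⟩ := (e2.and e3).exists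
    exact ⟨u, hu'.1, hu'.2, big u hu'.1 (hu'.2.trans hsM) hu⟩
  obtain ⟨v, hsv, hvM, hv1⟩ : ∃ v, s < v ∧ v < M ∧ 1 ≤ V g c v := by
    have e1 : Tendsto g (𝓝[<] M) (𝓝 (g M)) := hg.continuousAt.mono_left nhdsWithin_le_nhds
    rw [hM] at e1
    have e2 : ∀ᶠ x in 𝓝[<] M, g x < c := e1.eventually_lt_const h1
    have e3 : ∀ᶠ x in 𝓝[<] M, x ∈ Ioo s M := Ioo_mem_nhdsLT hsM
    obtain ⟨v, hv, hv'⟩ := (e2.and e3).exists
    exact ⟨v, hv'.1, hv'.2, big v (hs0.trans hv'.1) hv'.2 hv⟩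
  obtain ⟨p, hup, hps, hp1, hplt⟩ := exists_last hus.le
    (hVc.mono (fun x hx => ⟨lt_of_lt_of_le hu0 hx.1, lt_of_le_of_lt hx.2 hsM⟩)) hu1 hs
  obtain ⟨q, hsq, hqv, hq1, hqlt⟩ := exists_first hsv.le
    (hVc.mono (fun x hx => ⟨lt_of_lt_of_le hs0 hx.1, lt_of_le_of_lt hx.2 hvM⟩)) hs hv1
  have hp0 : 0 < p := lt_of_lt_of_le hu0 hup
  have hqM : q < M := lt_of_le_of_lt hqv hvM
  have hin : ∀ x ∈ Ioo p q, V g c x < 1 := by
    intro x hx
    rcases le_total x s with hxs | hxs
    · exact hplt x hx.1 hxs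
    · exact hqlt x hxs hx.2
  refine ⟨p, q, hp0, hps, hsq, hqM, hp1, hq1, ?_, hin⟩
  ext r
  constructor
  · intro hr
    have hr' : ∀ x ∈ uIcc s r, 0 < x ∧ x < M ∧ V g c x < 1 := hr
    constructor
    · by_contra hcon
      push Not at hcon
      have : p ∈ uIcc s r := by
        rw [uIcc_of_ge (by linarith)]; exact ⟨hcon, hps.le⟩
      have := (hr' p this).2.2
      linarith
    · by_contra hcon
      push Not at hcon
      have : q ∈ uIcc s r := by
        rw [uIcc_of_le (by linarith)]; exact ⟨hsq.le, hcon⟩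
      have := (hr' q this).2.2
      linarith
  · intro hr x hx
    have hx' : x ∈ Ioo p q :=
      (ordConnected_Ioo.uIcc_subset ⟨hps, hsq⟩ hr) hx
    exact ⟨hp0.trans hx'.1, hx'.2.trans hqM, hin x hx'⟩

/-- Contribution of a compact interval to the action. -/
theorem actW_ge (hg : Continuous g) {c x y s : ℝ}
    (hx : 0 < x) (hy : y < M) (hs : s ∈ Icc x y) (hV : ∀ r ∈ Icc x y, V g c r < 1) :
    2 * ∫ r in Icc x y, √(1 - V g c r) ≤ actW M (V g c) s := by
  unfold actW
  have hsub : Icc x y ⊆ well M (V g c) s := by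
    intro r hr z hz
    have hz' : z ∈ Icc x y := (ordConnected_Icc.uIcc_subset hs hr) hz
    exact ⟨lt_of_lt_of_le hx hz'.1, lt_of_le_of_lt hz'.2 hy, hV z hz'⟩
  have hfin : volume (well M (V g c) s) < ⊤ :=
    lt_of_le_of_lt (measure_mono (well_sub M _ s)) measure_Ioo_lt_top
  have := setIntegral_mono_set (intOn hg c hfin)
    (Eventually.of_forall fun r => Real.sqrt_nonneg _) hsub.eventuallyLE
  linarith

/-- The effective potential stays below `1` on compact intervals for nearby constants. -/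
theorem ev_lt (hg : Continuous g) (hpos : ∀ x ∈ Ioo 0 M, 0 < g x) {c₀ : ℝ} {x y : ℝ}
    (hx : 0 < x) (hy : y < M) (hV : ∀ r ∈ Icc x y, V g c₀ r < 1) :
    ∀ᶠ c : ℝ in 𝓝 c₀, ∀ r ∈ Icc x y, V g c r < 1 := by
  refine isCompact_Icc.eventually_forall_of_forall_eventually
    (P := fun (c : ℝ) (r : ℝ) => V g c r < 1) ?_
  intro r hr
  have h1 : g r ≠ 0 := (hpos r ⟨lt_of_lt_of_le hx hr.1, lt_of_le_of_lt hr.2 hy⟩).ne'
  have e1 : ContinuousAt (fun z : ℝ × ℝ => g z.2) (c₀, r) :=
    (hg.comp continuous_snd).continuousAt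
  have e3 : ContinuousAt (fun z : ℝ × ℝ => z.1) (c₀, r) := continuous_fst.continuousAt
  have e5 : ContinuousAt (fun z : ℝ × ℝ => V g z.1 z.2) (c₀, r) := by
    unfold V
    exact (e3.div e1 h1).pow 2
  exact e5.eventually (eventually_lt_nhds (hV r hr))

theorem tendsto_int (hg : Continuous g) {c₀ : ℝ}
    {c : ℕ → ℝ} (hc : Tendsto c atTop (𝓝 c₀)) (x y : ℝ) :
    Tendsto (fun n => ∫ r in Icc x y, √(1 - V g (c n) r)) atTop
      (𝓝 (∫ r in Icc x y, √(1 - V g c₀ r))) := by
  refine tendsto_integral_of_dominated_convergence (fun _ => (1 : ℝ)) ?_ ?_ ?_ ?_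
  · intro n; exact (meas hg _).aestronglyMeasurable
  · exact (integrableOn_const measure_Icc_lt_top.ne : IntegrableOn (fun _ => (1 : ℝ)) (Icc x y))
  · intro n
    refine Eventually.of_forall fun r => ?_
    rw [Real.norm_of_nonneg (Real.sqrt_nonneg _)]
    exact bd _ r
  · refine Eventually.of_forall fun r => ?_
    unfold V
    exact (tendsto_const_nhds.sub ((hc.div_const _).pow 2)).sqrt

/-- Truncating the interval of integration changes the integral by at most the length. -/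
theorem trunc (hg : Continuous g) (c : ℝ) {p x y q : ℝ}
    (hpx : p ≤ x) (hxy : x ≤ y) (hyq : y ≤ q) :
    ∫ r in Ioo p q, √(1 - V g c r) ≤
      (∫ r in Icc x y, √(1 - V g c r)) + (x - p) + (q - y) := by
  rw [← integral_Ioc_eq_integral_Ioo, integral_Icc_eq_integral_Ioc,
    ← intervalIntegral.integral_of_le (hpx.trans (hxy.trans hyq)),
    ← intervalIntegral.integral_of_le hxy]
  have hi : ∀ u v : ℝ, IntervalIntegrable (fun r => √(1 - V g c r)) volume u v := by
    intro u v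
    rw [intervalIntegrable_iff]
    exact intOn hg c (by rw [uIoc]; exact measure_Ioc_lt_top)
  have hb : ∀ u v : ℝ, u ≤ v → ∫ r in u..v, √(1 - V g c r) ≤ v - u := by
    intro u v huv
    have := intervalIntegral.integral_mono_on huv (hi u v)
      (intervalIntegrable_const (c := (1 : ℝ))) (fun r _ => bd c r)
    simpa using this
  rw [← intervalIntegral.integral_add_adjacent_intervals (hi p y) (hi y q),
    ← intervalIntegral.integral_add_adjacent_intervals (hi p x) (hi x y)]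
  have := hb p x hpx
  have := hb y q hyq
  linarith

/-- Lower semicontinuity of the action. -/
theorem lsc (hg : Continuous g) (hpos : ∀ x ∈ Ioo 0 M, 0 < g x) {s : ℝ}
    {c₀ : ℝ} {c : ℕ → ℝ} (hc : Tendsto c atTop (𝓝 c₀)) {R m : ℝ}
    (hD : Tendsto (fun n => actW M (V g (c n)) s - 2 * π * (R - c n)) atTop (𝓝 m))
    {p q : ℝ} (hp : 0 ≤ p) (hq : q ≤ M)
    (hV : ∀ r ∈ Ioo p q, V g c₀ r < 1) (hx : p < s) (hy : s < q) :
    2 * (∫ r in Ioo p q, √(1 - V g c₀ r)) - 2 * π * (R - c₀) ≤ m := by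
  refine le_of_forall_pos_le_add fun ε hε => ?_
  set x := min (p + ε / 4) s with hxdef
  set y := max (q - ε / 4) s with hydef
  have hpx : p < x := lt_min (by linarith) hx
  have hyq : y < q := max_lt (by linarith) hy
  have hxx : x ≤ s := min_le_right _ _
  have hyy : s ≤ y := le_max_right _ _
  have hx4 : x ≤ p + ε / 4 := min_le_left _ _
  have hy4 : q - ε / 4 ≤ y := le_max_left _ _
  have hxy2 : x ≤ y := hxx.trans hyy
  have hV' : ∀ r ∈ Icc x y, V g c₀ r < 1 := fun r hr =>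
    hV r ⟨lt_of_lt_of_le hpx hr.1, lt_of_le_of_lt hr.2 hyq⟩
  have hx0 : 0 < x := lt_of_le_of_lt hp hpx
  have hyM : y < M := lt_of_lt_of_le hyq hq
  have ev1 := hc.eventually (ev_lt hg hpos hx0 hyM hV')
  have ev2 : ∀ᶠ n in atTop, 2 * (∫ r in Icc x y, √(1 - V g (c n) r)) -
      2 * π * (R - c n) ≤ actW M (V g (c n)) s - 2 * π * (R - c n) := by
    filter_upwards [ev1] with n hn
    have := actW_ge hg hx0 hyM ⟨hxx, hyy⟩ hn
    linarith
  have lim : Tendsto (fun n => 2 * (∫ r in Icc x y, √(1 - V g (c n) r)) -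
      2 * π * (R - c n)) atTop (𝓝 (2 * (∫ r in Icc x y, √(1 - V g c₀ r)) -
      2 * π * (R - c₀))) :=
    ((tendsto_int hg hc x y).const_mul 2).sub ((tendsto_const_nhds.sub hc).const_mul (2 * π))
  have key := le_of_tendsto_of_tendsto lim hD ev2
  have ht := trunc hg c₀ hpx.le hxy2 hyq.le
  linarith

/-- Existence of the minimum of the action defect if it is negative somewhere. -/
theorem exists_min (hM0 : 0 < M) (hg : Continuous g) (hpos : ∀ x ∈ Ioo 0 M, 0 < g x)
    (h0 : g 0 = 0) (hM : g M = 0) {s R : ℝ} (hs : s ∈ Ioo 0 M) (hRs : R < g s)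
    (hRM : π * R ≤ M) (hneg : ∃ c, 0 < c ∧ c < R ∧ actW M (V g c) s < 2 * π * (R - c)) :
    ∃ c, 0 < c ∧ c < R ∧ actW M (V g c) s < 2 * π * (R - c) ∧ ∀ c', 0 < c' → c' < R →
      actW M (V g c) s - 2 * π * (R - c) ≤ actW M (V g c') s - 2 * π * (R - c') := by
  have hπ := Real.pi_pos
  set E : Set ℝ := (fun c => actW M (V g c) s - 2 * π * (R - c)) '' Ioo 0 R with hE
  have hbdd : BddBelow E := by
    refine ⟨-(2 * π * R), ?_⟩
    rintro _ ⟨c, hc, rfl⟩
    have h1 := actW_nonneg M (V g c) s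
    have h2 := hc.1
    simp only
    nlinarith
  obtain ⟨c₁, hc₁, hc₁R, hc₁'⟩ := hneg
  have hne : E.Nonempty := ⟨_, c₁, ⟨hc₁, hc₁R⟩, rfl⟩
  set m := sInf E with hm
  have hmneg : m < 0 := by
    have : m ≤ actW M (V g c₁) s - 2 * π * (R - c₁) := csInf_le hbdd ⟨c₁, ⟨hc₁, hc₁R⟩, rfl⟩
    linarith
  obtain ⟨u, -, hu, huE⟩ := exists_seq_tendsto_sInf hne hbdd
  choose d hdT hdu using huE
  have hdK : ∀ n, d n ∈ Icc (0 : ℝ) R := fun n => ⟨(hdT n).1.le, (hdT n).2.le⟩
  obtain ⟨c₀, hc₀, φ, hφ, hlim⟩ := isCompact_Icc.tendsto_subseq hdK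
  set c : ℕ → ℝ := d ∘ φ with hcdef
  have hcT : ∀ n, c n ∈ Ioo 0 R := fun n => hdT (φ n)
  have hD : Tendsto (fun n => actW M (V g (c n)) s - 2 * π * (R - c n)) atTop (𝓝 m) := by
    have : (fun n => actW M (V g (c n)) s - 2 * π * (R - c n)) = u ∘ φ := by
      funext n; exact hdu (φ n)
    rw [this]
    exact hu.comp hφ.tendsto_atTop
  have hc₀R : c₀ < R := by
    rcases lt_or_eq_of_le hc₀.2 with hh | hh
    · exact hh
    exfalso
    have lim0 : Tendsto (fun n => -(2 * π * (R - c n))) atTop (𝓝 (-(2 * π * (R - c₀)))) :=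
      ((tendsto_const_nhds.sub hlim).const_mul (2 * π)).neg
    have := le_of_tendsto_of_tendsto lim0 hD (Eventually.of_forall fun n => by
      have := actW_nonneg M (V g (c n)) s
      simp only
      linarith)
    rw [hh] at this
    simp at this
    linarith
  rcases eq_or_lt_of_le hc₀.1 with h01 | h01
  · exfalso
    have key := lsc (s := s) hg hpos hlim hD (p := 0) (q := M) le_rfl le_rfl
      (fun r _ => by rw [← h01]; unfold V; simp) hs.1 hs.2
    rw [← h01] at key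
    have e : ∫ r in Ioo 0 M, √(1 - V g 0 r) = M := by
      have : (fun r => √(1 - V g 0 r)) = fun _ => (1 : ℝ) := by
        funext r; unfold V; simp
      rw [this]
      simp [hM0.le]
    rw [e] at key
    linarith
  · have hVs : V g c₀ s < 1 := by
      have hgs : 0 < g s := hpos s hs
      have h1 : c₀ / g s < 1 := by rw [div_lt_one hgs]; linarith
      have h2 : 0 < c₀ / g s := div_pos h01 hgs
      unfold V
      nlinarith
    obtain ⟨p, q, hp, hps, hsq, hq, -, -, hw, hin⟩ := well_spec hg hpos h0 hM h01 hs.1 hs.2 hVs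
    have key := lsc (s := s) hg hpos hlim hD (p := p) (q := q) hp.le hq.le hin hps hsq
    have hle : actW M (V g c₀) s - 2 * π * (R - c₀) ≤ m := by
      unfold actW
      rw [hw]
      exact key
    refine ⟨c₀, h01, hc₀R, ?_, ?_⟩
    · linarith
    · intro c' hc'0 hc'R
      exact hle.trans (csInf_le hbdd ⟨c', ⟨hc'0, hc'R⟩, rfl⟩)

theorem V_contDiffOn (hg : ContDiff ℝ ∞ g) (hpos : ∀ x ∈ Ioo 0 M, 0 < g x) (c : ℝ) :
    ContDiffOn ℝ ∞ (V g c) (Ioo 0 M) := by
  unfold V
  exact (contDiffOn_const.div hg.contDiffOn fun r hr => (hpos r hr).ne').pow 2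

theorem V_reg (hg : ContDiff ℝ ∞ g) (hpos : ∀ x ∈ Ioo 0 M, 0 < g x) (c : ℝ) {p : ℝ}
    (hp : p ∈ Ioo 0 M) : (∀ᶠ x in 𝓝 p, DifferentiableAt ℝ (V g c) x) ∧
      DifferentiableAt ℝ (deriv (V g c)) p := by
  have h1 := V_contDiffOn hg hpos c
  rw [contDiffOn_infty_iff_deriv_of_isOpen isOpen_Ioo] at h1
  constructor
  · filter_upwards [isOpen_Ioo.mem_nhds hp] with x hx
    exact h1.1.differentiableAt (isOpen_Ioo.mem_nhds hx)
  · exact (h1.2.differentiableOn (by simp)).differentiableAt (isOpen_Ioo.mem_nhds hp)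

theorem V_deriv (hg : ContDiff ℝ ∞ g) {c p : ℝ} (hp : g p ≠ 0) :
    deriv (V g c) p = -(2 * c ^ 2 / g p ^ 3) * deriv g p := by
  have h1 : HasDerivAt g (deriv g p) p :=
    ((hg.differentiable (by simp)) p).hasDerivAt
  have h2 : HasDerivAt (fun x => (c / g x) ^ 2)
      ((2 : ℕ) * (c / g p) ^ (2 - 1) * ((0 * g p - c * deriv g p) / g p ^ 2)) p :=
    ((hasDerivAt_const p c).div h1 hp).pow 2
  have h3 : deriv (V g c) p = _ := h2.deriv
  rw [h3, show (2 - 1 : ℕ) = 1 from rfl, pow_one]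
  push_cast
  field_simp
  ring

/-- the weight `1/(2g)²`, with `k = 2c`, to get the constant `2π` from the estimates with `π` -/
noncomputable def G (g : ℝ → ℝ) (r : ℝ) : ℝ := 1 / (2 * g r) ^ 2

theorem G_cont (hg : Continuous g) (hpos : ∀ x ∈ Ioo 0 M, 0 < g x) :
    ContinuousOn (G g) (Ioo 0 M) := by
  unfold G
  exact continuousOn_const.div ((continuous_const.mul hg).pow 2).continuousOn
    fun r hr => by have := hpos r hr; positivity

theorem G_pos (hpos : ∀ x ∈ Ioo 0 M, 0 < g x) : ∀ x ∈ Ioo 0 M, 0 < G g x := by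
  intro x hx
  have := hpos x hx
  unfold G
  positivity

theorem V_add (g : ℝ → ℝ) (c ε : ℝ) :
    (fun r => V g c r + ((2 * c + ε) ^ 2 - (2 * c) ^ 2) * G g r) = V g (c + ε / 2) := by
  funext r
  unfold V G
  ring

theorem V_sub (g : ℝ → ℝ) (c ε : ℝ) :
    (fun r => V g c r - ((2 * c) ^ 2 - (2 * c - ε) ^ 2) * G g r) = V g (c - ε / 2) := by
  funext r
  unfold V G
  ring

theorem weight_eq (g : ℝ → ℝ) (c r : ℝ) :
    c / (g r ^ 2 * √(1 - V g c r)) = 2 * (2 * c * G g r / √(1 - V g c r)) := by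
  unfold G
  rw [div_mul_eq_div_div]
  ring

/-- The equations at a minimum of the action defect. -/
theorem crit (hg : ContDiff ℝ ∞ g) (hpos : ∀ x ∈ Ioo 0 M, 0 < g x) {s R c : ℝ}
    (hc : 0 < c) (hcR : c < R)
    (hmin : ∀ c', 0 < c' → c' < R →
      actW M (V g c) s - 2 * π * (R - c) ≤ actW M (V g c') s - 2 * π * (R - c'))
    {p q : ℝ} (hp : 0 < p) (hps : p < s) (hsq : s < q) (hq : q < M)
    (hVp : V g c p = 1) (hVq : V g c q = 1) (hw : well M (V g c) s = Ioo p q)
    (hin : ∀ x ∈ Ioo p q, V g c x < 1) :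
    IntegrableOn (fun r => 1 / √(1 - V g c r)) (Ioo p q) ∧
    IntegrableOn (fun r => c / (g r ^ 2 * √(1 - V g c r))) (Ioo p q) ∧
    2 * ∫ r in Ioo p q, c / (g r ^ 2 * √(1 - V g c r)) = 2 * π ∧
    deriv (V g c) p < 0 ∧ 0 < deriv (V g c) q := by
  have hVc : ContinuousOn (V g c) (Ioo 0 M) := cont_V hg.continuous hpos c
  have hGc := G_cont hg.continuous hpos
  have hG0 := G_pos hpos
  have hpq : p < q := hps.trans hsq
  have hsub2 : Icc p q ⊆ Ioo 0 M := fun r hr => ⟨by linarith [hr.1], by linarith [hr.2]⟩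
  have hsub3 : Ioo p q ⊆ Ioo 0 M := Ioo_subset_Icc_self.trans hsub2
  have F1 := abs_F hVc hGc hG0 hp hps hsq hq hVp hVq hin (k := 2 * c) (by positivity)
    (σ := fun _ => s) tendsto_const_nhds (by
      have h1 : ∀ᶠ ε in 𝓝[>] (0 : ℝ), ε / 2 < R - c := by
        have h2 : Tendsto (fun ε : ℝ => ε / 2) (𝓝[>] 0) (𝓝 0) := by
          have h3 : Continuous fun ε : ℝ => ε / 2 := by fun_prop
          have h4 := h3.tendsto 0
          rw [zero_div] at h4
          exact tendsto_nhdsWithin_of_tendsto_nhds h4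
        exact h2.eventually_lt_const (by linarith)
      filter_upwards [h1, self_mem_nhdsWithin] with ε h2 h3
      rw [mem_Ioi] at h3
      have h4 := hmin (c + ε / 2) (by linarith) (by linarith)
      have h5 : actW M (V g c) s = 2 * ∫ r in Ioo p q, √(1 - V g c r) := by
        rw [actW, hw]
      have h6 : 2 * (∫ r in well M (fun r => V g c r + ((2 * c + ε) ^ 2 - (2 * c) ^ 2) * G g r) s,
          √(1 - (V g c r + ((2 * c + ε) ^ 2 - (2 * c) ^ 2) * G g r))) =
          actW M (V g (c + ε / 2)) s := by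
        rw [actW, ← V_add]
      rw [h6, ← h5]
      linarith)
  have hint : IntegrableOn (fun r => 1 / √(1 - V g c r)) (Ioo p q) := by
    obtain ⟨x1, hx1, hmin1⟩ := isCompact_Icc.exists_isMinOn (nonempty_Icc.mpr hpq.le)
      (hGc.mono hsub2)
    have hm : 0 < G g x1 := hG0 x1 (hsub2 hx1)
    have hI : IntegrableOn (fun r => 1 / (2 * c * G g x1) *
      (2 * c * G g r / √(1 - V g c r))) (Ioo p q) := F1.1.const_mul _
    refine hI.mono' ?_ ?_
    · apply ContinuousOn.aestronglyMeasurable _ measurableSet_Ioo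
      refine continuousOn_const.div (continuousOn_const.sub (hVc.mono hsub3)).sqrt ?_
      intro r hr
      exact (Real.sqrt_pos.mpr (by linarith [hin r hr])).ne'
    · refine (ae_restrict_iff' measurableSet_Ioo).mpr (ae_of_all _ fun r hr => ?_)
      have hs : 0 < √(1 - V g c r) := Real.sqrt_pos.mpr (by linarith [hin r hr])
      rw [Real.norm_eq_abs, abs_of_pos (by positivity)]
      have h1 : G g x1 ≤ G g r := hmin1 (Ioo_subset_Icc_self hr)
      have h2 : 1 / (2 * c * G g x1) * (2 * c * G g r / √(1 - V g c r)) =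
          (G g r / G g x1) * (1 / √(1 - V g c r)) := by
        field_simp
      rw [h2]
      have h3 : 1 ≤ G g r / G g x1 := by rw [le_div_iff₀ hm, one_mul]; exact h1
      exact le_mul_of_one_le_left (by positivity) h3
  obtain ⟨r1, r2⟩ := V_reg hg hpos c (hsub2 (left_mem_Icc.mpr hpq.le))
  obtain ⟨r3, r4⟩ := V_reg hg hpos c (hsub2 (right_mem_Icc.mpr hpq.le))
  have hp' : deriv (V g c) p < 0 := deriv_neg hpq r1 r2 hVp hin hint
  have hq' : 0 < deriv (V g c) q := deriv_pos hpq r3 r4 hVq hin hint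
  have b1 := left_bound r1.self_of_nhds hp' hVp
  have b2 := right_bound r3.self_of_nhds hq' hVq
  have F2 := abs_ge hVc hGc hG0 hp hps hsq hq hVp hVq hin
    (by linarith : 0 < -deriv (V g c) p / 2) (by linarith : 0 < deriv (V g c) q / 2) b1 b2
    (k := 2 * c) (by positivity) (σ := fun _ => s) tendsto_const_nhds (by
      have h1 : ∀ᶠ ε in 𝓝[>] (0 : ℝ), ε / 2 < c := by
        have h2 : Tendsto (fun ε : ℝ => ε / 2) (𝓝[>] 0) (𝓝 0) := by
          have h3 : Continuous fun ε : ℝ => ε / 2 := by fun_prop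
          have h4 := h3.tendsto 0
          rw [zero_div] at h4
          exact tendsto_nhdsWithin_of_tendsto_nhds h4
        exact h2.eventually_lt_const hc
      filter_upwards [h1, self_mem_nhdsWithin] with ε h2 h3
      rw [mem_Ioi] at h3
      have h4 := hmin (c - ε / 2) (by linarith) (by linarith)
      have h5 : actW M (V g c) s = 2 * ∫ r in Ioo p q, √(1 - V g c r) := by
        rw [actW, hw]
      have h6 : 2 * (∫ r in well M (fun r => V g c r - ((2 * c) ^ 2 - (2 * c - ε) ^ 2) * G g r) s,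
          √(1 - (V g c r - ((2 * c) ^ 2 - (2 * c - ε) ^ 2) * G g r))) =
          actW M (V g (c - ε / 2)) s := by
        rw [actW, ← V_sub]
      rw [h6, ← h5]
      linarith) F1.1
  have e : (fun r => c / (g r ^ 2 * √(1 - V g c r))) =
      fun r => 2 * (2 * c * G g r / √(1 - V g c r)) := funext fun r => weight_eq g c r
  refine ⟨hint, ?_, ?_, hp', hq'⟩
  · rw [e]
    exact F1.1.const_mul 2
  · rw [e, integral_const_mul]
    linarith [le_antisymm F1.2 F2]

/-- PART E: the one-parameter case. -/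
theorem t_E : Pool.Agent.Helper60.CP.S_E := by
  intro M s₀ R₀ g hM0 hgs hpos h0 hM hs hR hRs hRM hgeo
  by_contra hcon
  push Not at hcon
  obtain ⟨c₁, hc1, hc1R, hc1'⟩ := hcon
  obtain ⟨c, hc0, hcR, hneg, hmin⟩ := exists_min hM0 hgs.continuous hpos h0 hM hs hRs hRM
    ⟨c₁, hc1, hc1R, hc1'⟩
  have hVs : V g c s₀ < 1 := by
    have hgs' : 0 < g s₀ := hpos s₀ hs
    have h1 : c / g s₀ < 1 := by rw [div_lt_one hgs']; linarith
    have h2 : 0 < c / g s₀ := div_pos hc0 hgs'
    unfold V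
    nlinarith
  obtain ⟨p, q, hp, hps, hsq, hq, hVp, hVq, hw, hin⟩ :=
    well_spec hgs.continuous hpos h0 hM hc0 hs.1 hs.2 hVs
  obtain ⟨hint, hint2, hang, hp', hq'⟩ := crit hgs hpos hc0 hcR hmin hp hps hsq hq hVp hVq hw hin
  have hpq : p < q := hps.trans hsq
  have hpM : p ∈ Ioo 0 M := ⟨hp, hpq.trans hq⟩
  have hqM : q ∈ Ioo 0 M := ⟨hp.trans hpq, hq⟩
  have hgp : 0 < g p := hpos p hpM
  have hgq : 0 < g q := hpos q hqM
  have hgin : ∀ x ∈ Ioo p q, 0 < g x := fun x hx => hpos x ⟨hp.trans hx.1, hx.2.trans hq⟩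
  have eq1 : ∀ x, 0 < g x → V g c x = 1 → g x = c := by
    intro x hx hV
    unfold V at hV
    have h1 : 0 < c / g x := div_pos hc0 hx
    have h2 : c / g x = 1 := by nlinarith
    rw [div_eq_one_iff_eq hx.ne'] at h2
    exact h2.symm
  have hgeo' := hgeo c p q hc0 hcR hp hps hsq hq (eq1 p hgp hVp) (eq1 q hgq hVq)
    (fun x hx => by
      have h1 := hin x hx
      have h2 := hgin x hx
      unfold V at h1
      have h3 : 0 < c / g x := div_pos hc0 h2
      have h4 : c / g x < 1 := by nlinarith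
      rwa [div_lt_one h2] at h4)
    (by
      rw [V_deriv hgs hgp.ne'] at hp'
      have h1 : 0 < 2 * c ^ 2 / g p ^ 3 := by positivity
      nlinarith)
    (by
      rw [V_deriv hgs hgq.ne'] at hq'
      have h1 : 0 < 2 * c ^ 2 / g q ^ 3 := by positivity
      nlinarith)
    hint hang
  have e : ∀ x ∈ Ioo p q, 1 / √(1 - V g c x) = √(1 - V g c x)
      + c * (c / (g x ^ 2 * √(1 - V g c x))) := by
    intro x hx
    have hx1 : 0 < 1 - V g c x := by linarith [hin x hx]
    have hsq := Real.sq_sqrt hx1.le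
    have hsp := Real.sqrt_pos.2 hx1
    have hgx := (hgin x hx).ne'
    have hVx : V g c x = (c / g x) ^ 2 := rfl
    set y := √(1 - V g c x) with hy
    have h3 : y ^ 2 = 1 - (c / g x) ^ 2 := by rw [hsq, hVx]
    have h4 : 1 = y ^ 2 + c ^ 2 / g x ^ 2 := by
      rw [h3, div_pow]; ring
    have h5 : 1 / y = (y ^ 2 + c ^ 2 / g x ^ 2) / y := by rw [← h4]
    rw [h5]
    field_simp
  have i0 : IntegrableOn (fun x => √(1 - V g c x)) (Ioo p q) :=
    intOn hgs.continuous c measure_Ioo_lt_top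
  have h1 : ∫ x in Ioo p q, 1 / √(1 - V g c x) =
      (∫ x in Ioo p q, √(1 - V g c x)) +
      c * (∫ x in Ioo p q, c / (g x ^ 2 * √(1 - V g c x))) := by
    rw [setIntegral_congr_fun measurableSet_Ioo e, integral_add i0 (hint2.const_mul c),
      integral_const_mul]
  have h2 : actW M (V g c) s₀ = 2 * ∫ x in Ioo p q, √(1 - V g c x) := by
    rw [actW, hw]
  have h3 : 2 * π * R₀ ≤ 2 * ∫ x in Ioo p q, 1 / √(1 - V g c x) := hgeo'
  rw [h1] at h3
  have h4 : c * (2 * ∫ x in Ioo p q, c / (g x ^ 2 * √(1 - V g c x))) = c * (2 * π) := by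
    rw [hang]
  linarith

end Pool.Agent.Helper93.CPE
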